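import Mathlib

namespace Pool.Agent.H.MP_5ec4bc_an
open Filter Topology Finset
open scoped Classical

noncomputable def cnt (A : Set ℕ) (N : ℕ) : ℕ := ((Icc 1 N).filter (· ∈ A)).card

def Pos (A : Set ℕ) : Prop := ∃ δ : ℝ, 0 < δ ∧ ∀ᶠ N : ℕ in atTop, δ * N ≤ cnt A N

lemma down {α : Type} [Inhabited α] (R : ℕ → (ℕ → α) → α → Prop)
    (hd : ∀ i c c' v, (∀ l, i < l → c l = c' l) → R i c v → R i c' v) (he : ∀ i c, ∃ v, R i c v)
    (t : ℕ) : ∃ c, ∀ i < t, R i c (c i) := by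
  have : ∀ n, ∃ c, ∀ i < t, t ≤ i + n → R i c (c i) := by
    intro n
    induction n with
    | zero => exact ⟨default, fun i h1 h2 => by omega⟩
    | succ n ih =>
      obtain ⟨c, hc⟩ := ih
      obtain ⟨v, hv⟩ := he (t - (n + 1)) c
      refine ⟨Function.update c (t - (n + 1)) v, fun i h1 h2 => ?_⟩
      by_cases h : i = t - (n + 1)
      · subst h
        rw [Function.update_self]
        exact hd _ c _ _ (fun l hl => (Function.update_of_ne hl.ne' _ _).symm) hv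
      · rw [Function.update_of_ne h]
        exact hd _ c _ _ (fun l hl => (Function.update_of_ne (by omega) _ _).symm)
          (hc i h1 (by omega))
  obtain ⟨c, hc⟩ := this t
  exact ⟨c, fun i h => hc i h (by omega)⟩

lemma pigeon {β : Type} [DecidableEq β] (F : Finset ℕ) (T : Finset β) (hT : T.Nonempty) (f : ℕ → β)
    (h : ∀ n ∈ F, f n ∈ T) : ∃ v, F.card ≤ T.card * (F.filter (f · = v)).card := by
  obtain ⟨v, -, hv⟩ := exists_max_image T (fun v => (F.filter (f · = v)).card) hT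
  refine ⟨v, ?_⟩
  rw [card_eq_sum_card_fiberwise h]
  exact sum_le_card_nsmul _ _ _ hv

lemma good {A : Set ℕ} {δ : ℝ} {T b : ℕ} (hT : (1 / 2 : ℝ) ^ T < δ / 4)
    (h : δ * (2 ^ (b + T) : ℕ) ≤ cnt A (2 ^ (b + T))) :
    ∃ j, b ≤ j ∧ j < b + T ∧ δ / 2 * 2 ^ j ≤ ((Ioc (2 ^ j) (2 ^ (j + 1))).filter (· ∈ A)).card := by
  by_contra! hn
  have h0 : 0 < δ := by linarith [show (0 : ℝ) < (1 / 2) ^ T by positivity]
  have key : ∀ s ≤ T, (cnt A (2 ^ (b + s)) : ℝ) ≤ 2 ^ b + δ / 2 * 2 ^ (b + s) := by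
    intro s hs
    induction s with
    | zero =>
      have : cnt A (2 ^ b) ≤ 2 ^ b := (card_filter_le _ _).trans (by simp)
      have : (cnt A (2 ^ b) : ℝ) ≤ 2 ^ b := by exact_mod_cast this
      rw [add_zero]; linarith [show 0 ≤ δ / 2 * 2 ^ b by positivity]
    | succ s ih =>
      have h1 : cnt A (2 ^ (b + s + 1)) ≤ cnt A (2 ^ (b + s)) +
          ((Ioc (2 ^ (b + s)) (2 ^ (b + s + 1))).filter (· ∈ A)).card := by
        refine le_trans (card_le_card fun n hn => ?_) (card_union_le _ _)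
        simp only [mem_filter, mem_union, mem_Icc, mem_Ioc] at hn ⊢
        by_cases h : n ≤ 2 ^ (b + s) <;> simp [hn, h] <;> omega
      have h2 := hn (b + s) (by omega) (by omega)
      have h3 := ih (by omega)
      have h1' := (Nat.cast_le (α := ℝ)).2 h1
      rw [← add_assoc, pow_succ (2 : ℝ)]
      push_cast at h1'
      linarith
  have h1 := key T le_rfl
  have h2 : (2 : ℝ) ^ b = 2 ^ (b + T) * (1 / 2) ^ T := by
    rw [pow_add, mul_assoc, ← mul_pow]; simp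
  push_cast at h
  nlinarith [show (0 : ℝ) < 2 ^ (b + T) by positivity]

lemma block (A : ℕ → Set ℕ) {δ : ℕ → ℝ} {κ D : ℕ → ℕ} (h0 : ∀ i, 0 < δ i) (hδ : Antitone δ)
    (hκ : ∀ l, (1 / 2 : ℝ) ^ κ l ≤ δ l * (1 / 2) ^ l / 32) (hD : ∀ i, 0 < D i) (j : ℕ) :
    ∃ S : ℕ → Finset ℕ, ∀ i < j,
      (∀ n ∈ S i, n ∈ A i ∧ 2 ^ j + 2 ^ j / 2 ^ κ i < n ∧ n + 2 ^ j / 2 ^ κ i ≤ 2 ^ (j + 1)) ∧
      (∀ n ∈ S i, ∀ n' ∈ S i, n < n' → n + D i ≤ n') ∧
      (∀ l, i < l → l < j → ∀ n ∈ S i, ∀ n' ∈ S l,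
        n + 2 ^ j / 2 ^ κ l ≤ n' ∨ n' + 2 ^ j / 2 ^ κ l ≤ n) ∧
      (κ i ≤ j → δ i / 2 * 2 ^ j ≤ ((Ioc (2 ^ j) (2 ^ (j + 1))).filter (· ∈ A i)).card →
        δ i / 4 * 2 ^ j ≤ (2 ^ (κ i + 2) * D i : ℕ) * (S i).card) := by
  set L : ℕ → ℕ := fun l => 2 ^ j / 2 ^ κ l with hL
  let F : ℕ → (ℕ → ℕ × ℕ) → Finset ℕ := fun i c =>
    ((Ioc (2 ^ j + L i) (2 ^ (j + 1) - L i)).filter (· ∈ A i)) \
      (Ioo i j).biUnion fun l => Ico ((c l).1 * L l - L l) ((c l).1 * L l + 2 * L l)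
  let f : ℕ → ℕ → ℕ × ℕ := fun i n => (n / L i, n % D i)
  obtain ⟨c, hc⟩ := down (fun i c v => κ i ≤ j → (F i c).card ≤
      2 ^ (κ i + 2) * D i * ((F i c).filter (f i · = v)).card) (fun i c c' v h => by
    have : F i c = F i c' := by
      simp only [F]; congr 1
      exact biUnion_congr rfl fun l hl => by rw [h l (mem_Ioo.1 hl).1]
    rw [this]; exact id) (fun i c => by
    by_cases h : κ i ≤ j
    · obtain ⟨v, hv⟩ := pigeon (F i c) (range (2 ^ (κ i + 2)) ×ˢ range (D i))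
        ⟨(0, 0), by simp [hD i]⟩ (f i) fun n hn => by
          have h1 := (mem_Ioc.1 (mem_filter.1 (mem_sdiff.1 hn).1).1).2
          have h2 : L i * 2 ^ κ i = 2 ^ j := Nat.div_mul_cancel (pow_dvd_pow 2 h)
          have h3 : 0 < 2 ^ j := by positivity
          refine mem_product.2 ⟨mem_range.2 (Nat.div_lt_of_lt_mul ?_),
            mem_range.2 (Nat.mod_lt _ (hD i))⟩
          rw [pow_add, ← mul_assoc, h2]; rw [pow_succ] at h1; omega
      exact ⟨v, fun _ => by simpa using hv⟩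
    · exact ⟨default, fun h' => absurd h' h⟩) j
  have LL : ∀ l, (L l : ℝ) ≤ 2 ^ j * (δ l * (1 / 2) ^ l / 32) := fun l => by
    refine (Nat.cast_div_le).trans ?_
    push_cast
    rw [div_eq_mul_one_div, ← one_div_pow]
    gcongr; exact hκ l
  refine ⟨fun i => (F i c).filter (f i · = c i), fun i hi => ⟨fun n hn => ?_,
    fun n hn n' hn' h => ?_, fun l h1 h2 n hn n' hn' => ?_, fun h1 h2 => ?_⟩⟩
  · have h1 := mem_filter.1 (mem_sdiff.1 (mem_filter.1 hn).1).1
    have h2 := mem_Ioc.1 h1.1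
    have h3 : L i ≤ 2 ^ j := Nat.div_le_self _ _
    exact ⟨h1.2, h2.1, show n + L i ≤ _ by omega⟩
  · have h1 : n % D i = n' % D i := congrArg Prod.snd
      ((mem_filter.1 hn).2.trans (mem_filter.1 hn').2.symm)
    have := Nat.le_of_dvd (by omega) ((Nat.modEq_iff_dvd' h.le).1 h1)
    omega
  · have h3 := (mem_sdiff.1 (mem_filter.1 hn).1).2
    simp only [mem_biUnion, not_exists, not_and, mem_Ioo, mem_Ico, and_imp] at h3
    have h4 := h3 l h1 h2
    have h5 : n' / L l = (c l).1 := congrArg Prod.fst (mem_filter.1 hn').2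
    show n + L l ≤ n' ∨ n' + L l ≤ n
    rcases (L l).eq_zero_or_pos with h | h
    · omega
    · have h6 := Nat.div_mul_le_self n' (L l)
      have h7 := Nat.lt_div_mul_add (a := n') h
      rw [h5] at h6 h7
      omega
  · have a1 := (Nat.cast_le (α := ℝ)).2 (hc i hi h1)
    have a2 : ((Ioc (2 ^ j) (2 ^ (j + 1))).filter (· ∈ A i)).card ≤ (F i c).card +
        (L i + L i + ∑ l ∈ Ioo i j, 3 * L l) := by
      refine le_trans (card_le_card (t := F i c ∪ (Ioc (2 ^ j) (2 ^ j + L i) ∪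
        Ioc (2 ^ (j + 1) - L i) (2 ^ (j + 1)) ∪ (Ioo i j).biUnion fun l =>
          Ico ((c l).1 * L l - L l) ((c l).1 * L l + 2 * L l))) fun n hn => ?_)
        ((card_union_le _ _).trans (Nat.add_le_add_left ((card_union_le _ _).trans (add_le_add
          ((card_union_le _ _).trans (by simp only [Nat.card_Ioc]; omega))
          (card_biUnion_le.trans (sum_le_sum fun l _ => by rw [Nat.card_Ico]; omega)))) _))
      simp only [F, mem_union, Finset.mem_sdiff, mem_filter, mem_Ioc] at hn ⊢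
      by_cases h : n ∈ (Ioo i j).biUnion fun l =>
          Ico ((c l).1 * L l - L l) ((c l).1 * L l + 2 * L l)
      · exact Or.inr (Or.inr h)
      · simp only [hn, h, not_false_eq_true, and_true, true_and, or_false]; omega
    have a3 : ∑ l ∈ Ioo i j, (L l : ℝ) ≤ 2 ^ j * δ i / 32 * 2 := by
      refine (sum_le_sum (g := fun l => 2 ^ j * δ i / 32 * (1 / 2) ^ l) fun l hl =>
        (LL l).trans ?_).trans ?_
      · have := hδ (mem_Ioo.1 hl).1.le
        calc _ ≤ 2 ^ j * (δ i * (1 / 2) ^ l / 32) := by gcongr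
          _ = _ := by ring
      · rw [← mul_sum]
        have := (h0 i).le
        gcongr
        exact (summable_geometric_two.sum_le_tsum _ fun _ _ => by positivity).trans_eq
          tsum_geometric_two
    have a4 := (LL i).trans (show _ ≤ 2 ^ j * (δ i * 1 / 32) by
      have := (h0 i).le
      gcongr; exact pow_le_one₀ (by norm_num) (by norm_num))
    have a5 := (Nat.cast_le (α := ℝ)).2 a2
    push_cast [← mul_sum] at a1 a5 ⊢
    linarith

theorem comb (A : ℕ → Set ℕ) (hA : ∀ i, Pos (A i)) {D : ℕ → ℕ} (hD : ∀ i, 0 < D i)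
    (mD : Monotone D) : ∃ N : ℕ → Set ℕ, (∀ i, N i ⊆ A i ∧ Pos (N i)) ∧
      (∀ i l, ∀ n ∈ N i, ∀ n' ∈ N l, i ≠ l ∨ n ≠ n' → n + D i + D l ≤ n' ∨ n' + D i + D l ≤ n) ∧
      (∀ l, ∀ n ∈ N l, l ≤ n ∧ ∀ k, n + D l ≤ 2 ^ 2 ^ k ∨ 4 * 2 ^ 2 ^ k < n) ∧
      ∀ i, ∀ n ∈ N i, ∀ k, n + D i ≤ 2 ^ 2 ^ k ∨
        ∀ l < i, ∀ n' ∈ N l, n' ≤ n ∨ n + 2 * 2 ^ 2 ^ k + D i ≤ n' := by
  choose δ0 p0 q0 using hA
  let δ : ℕ → ℝ := fun i => (range (i + 1)).inf' nonempty_range_add_one δ0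
  have h0 : ∀ i, 0 < δ i := fun i => (lt_inf'_iff _).2 fun l _ => p0 l
  have hδ : Antitone δ := fun a b h => inf'_mono _ (range_mono (by omega)) _
  have hq : ∀ i, ∀ᶠ N : ℕ in atTop, δ i * N ≤ cnt (A i) N := fun i => (q0 i).mono fun N h =>
    le_trans (by gcongr; exact inf'_le _ (self_mem_range_succ i)) h
  choose κ hκ using fun l => exists_pow_lt_of_lt_one (show 0 < δ l * (1 / 2) ^ l / 32 by
    have := h0 l; positivity) (show (1 / 2 : ℝ) < 1 by norm_num)
  choose S hS using block A h0 hδ (fun l => (hκ l).le) (D := fun i => 2 * D i)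
    fun i => by have := hD i; omega
  let act : ℕ → ℕ → Prop := fun i j => i < j ∧ 2 * D i ≤ 2 ^ j / 2 ^ κ i ∧
    ∀ k, j + 2 ≤ 2 ^ k ∨ 2 ^ k + κ i + 3 ≤ j
  have pw : ∀ {a b : ℕ}, a ≤ b → 2 ^ a ≤ 2 ^ b := fun h => Nat.pow_le_pow_right two_pos h
  have dv : ∀ j i, 2 ^ j / 2 ^ κ i ≤ 2 ^ j := fun j i => Nat.div_le_self _ _
  refine ⟨fun i => {n | ∃ j, act i j ∧ n ∈ S j i}, fun i => ⟨?_, ?_⟩, ?_, ?_, ?_⟩
  · rintro n ⟨j, h1, h2⟩
    exact ((hS j i h1.1).1 n h2).1
  · set T := κ i with hT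
    have hT' : (1 / 2 : ℝ) ^ T < δ i / 4 := (hκ i).trans_le (by
      have := h0 i
      have : (1 / 2 : ℝ) ^ i ≤ 1 := pow_le_one₀ (by norm_num) (by norm_num)
      nlinarith)
    set C : ℝ := ((2 ^ (κ i + 2) * (2 * D i) : ℕ) : ℝ)
    have C0 : 0 < C := Nat.cast_pos.2 (by have := hD i; positivity)
    obtain ⟨N0, hN0⟩ := eventually_atTop.1 (hq i)
    refine ⟨δ i / 4 / C / 2 ^ (3 * T + 7), by have := h0 i; positivity, ?_⟩
    filter_upwards [eventually_ge_atTop (2 ^ (N0 + i + 2 * D i + 10 * T + 20))] with N hN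
    set J := Nat.log 2 N
    have J1 : N0 + i + 2 * D i + 10 * T + 20 ≤ J := Nat.le_log_of_pow_le one_lt_two hN
    have J2 : 2 ^ J ≤ N := Nat.pow_log_le_self 2 ((pow_pos two_pos _).trans_le hN).ne'
    have J3 : N < 2 ^ (J + 1) := Nat.lt_pow_succ_log_self one_lt_two N
    obtain ⟨b, b1, b2, b3⟩ : ∃ b, J ≤ b + 3 * T + 6 ∧ b + T ≤ J ∧
        ∀ k, b + T + 2 ≤ 2 ^ k ∨ 2 ^ k + T + 3 ≤ b := by
      by_cases h : ∃ k, 2 ^ k < J + 2 ∧ J < 2 ^ k + 2 * T + 3
      · obtain ⟨k, k1, k2⟩ := h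
        refine ⟨2 ^ k - T - 2, by omega, by omega, fun k' => ?_⟩
        rcases le_or_gt k k' with h | h
        · have := pw h; omega
        · have := pw (show k' + 1 ≤ k from h); rw [pow_succ] at this; omega
      · push Not at h
        exact ⟨J - T, by omega, by omega, fun k => by have := h k; omega⟩
    obtain ⟨j, j1, j2, j3⟩ := good (b := b) hT' (hN0 _ (by
      have := Nat.lt_two_pow_self (n := b + T); omega))
    have a1 : act i j := ⟨by omega, by
      rw [Nat.pow_div (by omega) two_pos]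
      have := Nat.lt_two_pow_self (n := j - κ i); omega, fun k => by have := b3 k; omega⟩
    have a2 := (hS j i a1.1).2.2.2 (by omega) j3
    have a3 : (S j i).card ≤ cnt {n | ∃ j, act i j ∧ n ∈ S j i} N := card_le_card fun n hn => by
      have := ((hS j i a1.1).1 n hn).2
      have := pw (show j + 1 ≤ J by omega)
      exact mem_filter.2 ⟨mem_Icc.2 ⟨by omega, by omega⟩, j, a1, hn⟩
    have a4 : (N : ℝ) ≤ 2 ^ (3 * T + 7) * 2 ^ j := by
      have := pw (show J + 1 ≤ 3 * T + 7 + j by omega)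
      rw [← pow_add]; exact_mod_cast J3.le.trans this
    have := h0 i
    calc _ ≤ δ i / 4 / C / 2 ^ (3 * T + 7) * (2 ^ (3 * T + 7) * 2 ^ j) := by gcongr
      _ = δ i / 4 * 2 ^ j / C := by field_simp
      _ ≤ (S j i).card := (div_le_iff₀' C0).2 a2
      _ ≤ _ := by exact_mod_cast a3
  · rintro i l n ⟨j, h1, h2⟩ n' ⟨j', h1', h2'⟩ h
    have a := ((hS j i h1.1).1 n h2).2
    have a' := ((hS j' l h1'.1).1 n' h2').2
    have b := h1.2.1
    have b' := h1'.2.1
    rcases lt_trichotomy j j' with hj | rfl | hj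
    · have := pw (show j + 1 ≤ j' from hj); omega
    · rcases lt_trichotomy i l with hi | rfl | hi
      · have := (hS j i h1.1).2.2.1 l hi h1'.1 n h2 n' h2'
        have := mD hi.le; omega
      · have := (hS j i h1.1).2.1 n h2 n' h2'
        have := (hS j i h1.1).2.1 n' h2' n h2
        omega
      · have := (hS j l h1'.1).2.2.1 i hi h1.1 n' h2' n h2
        have := mD hi.le; omega
    · have := pw (show j' + 1 ≤ j from hj); omega
  · rintro l n ⟨j, h1, h2⟩
    have a := ((hS j l h1.1).1 n h2).2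
    have b := h1.2.1
    refine ⟨by have := Nat.lt_two_pow_self (n := j); have := h1.1; omega, fun k => ?_⟩
    rcases h1.2.2 k with h | h
    · have := pw (show j + 1 ≤ 2 ^ k by omega); omega
    · have := pw (show 2 ^ k + 2 ≤ j by omega); rw [pow_add] at this; omega
  · rintro i n ⟨j, h1, h2⟩ k
    have a := ((hS j i h1.1).1 n h2).2
    have b := h1.2.1
    rcases h1.2.2 k with h | h
    · have := pw (show j + 1 ≤ 2 ^ k by omega); omega
    · right
      rintro l hl n' ⟨j', h1', h2'⟩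
      have a' := ((hS j' l h1'.1).1 n' h2').2
      have b' := h1'.2.1
      have c : 2 ^ 2 ^ k * 4 ≤ 2 ^ j / 2 ^ κ i := by
        rw [Nat.pow_div (by have := Nat.zero_le (2 ^ k); omega) two_pos]
        simpa [pow_add] using pw (show 2 ^ k + 2 ≤ j - κ i by omega)
      rcases lt_trichotomy j j' with hj | rfl | hj
      · have := pw (show j + 1 ≤ j' from hj); omega
      · have := (hS j l h1'.1).2.2.1 i hl h1.1 n' h2' n h2
        omega
      · have := pw (show j' + 1 ≤ j from hj); omega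

end Pool.Agent.H.MP_5ec4bc_an
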