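import Pool.Agent.H.MP_5ec4bc_an.A

namespace Pool.Agent.H.MP_5ec4bc_an
open Filter Topology Finset TopologicalSpace
open scoped Classical ENNReal

abbrev L := lp (fun _ : ℕ × Finset ℕ => ℝ) ∞
abbrev Y := ℕ → ℝ × L

def W (k : ℕ) : Finset ℕ := Ico (2 ^ 2 ^ k) (2 * 2 ^ 2 ^ k)

noncomputable def Φ (x : ℕ → ℝ) (m : ℕ) (p : ℕ × Finset ℕ) : ℝ :=
  (∑ t ∈ W p.1 ∩ p.2, x (t + m)) / (2 ^ 2 ^ p.1 : ℕ)

def Z : Submodule ℝ Y where
  carrier := {z | ∀ m p, (z m).2 p = Φ (fun t => (z t).1) m p}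
  add_mem' := fun {a b} ha hb m p => by
    have := ha m p; have := hb m p
    simp_all [Φ, sum_add_distrib, add_div]
  zero_mem' := fun m p => by simp [Φ]
  smul_mem' := fun c a ha m p => by
    have := ha m p
    simp_all [Φ, ← mul_sum, mul_div_assoc]

lemma Z_closed : IsClosed (Z : Set Y) := by
  have : (Z : Set Y) = ⋂ m, ⋂ p, {z : Y | (z m).2 p = Φ (fun t => (z t).1) m p} := by
    ext z; simp only [Set.mem_iInter]; rfl
  rw [this]
  refine isClosed_iInter fun m => isClosed_iInter fun p => isClosed_eq ?_ ?_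
  · exact (lp.evalCLM ℝ (fun _ : ℕ × Finset ℕ => ℝ) ∞ p).continuous.comp (by fun_prop)
  · unfold Φ; fun_prop

lemma Z_ext {a b : Y} (ha : a ∈ Z) (hb : b ∈ Z) (h : ∀ t, (a t).1 = (b t).1) : a = b := by
  funext m
  refine Prod.ext (h m) (lp.ext (funext fun p => ?_))
  rw [ha m p, hb m p, funext h]

lemma lt_N (k : ℕ) : k < 2 ^ 2 ^ k := Nat.lt_two_pow_self.trans Nat.lt_two_pow_self

lemma N_mono {j k : ℕ} (h : j ≤ k) : 2 ^ 2 ^ j ≤ 2 ^ 2 ^ k :=
  Nat.pow_le_pow_right two_pos (Nat.pow_le_pow_right two_pos h)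

def G (x : ℕ → ℝ) : Prop := ∀ m, ∃ K, ∀ k, K ≤ k → ∀ t ∈ W k, x (t + m) = 0

lemma abs_Φ (x : ℕ → ℝ) (m : ℕ) (p : ℕ × Finset ℕ) :
    |Φ x m p| ≤ (∑ t ∈ W p.1, |x (t + m)|) / (2 ^ 2 ^ p.1 : ℕ) := by
  rw [Φ, abs_div, Nat.abs_cast]
  gcongr
  exact (abs_sum_le_sum_abs _ _).trans
    (sum_le_sum_of_subset_of_nonneg inter_subset_left fun _ _ _ => abs_nonneg _)

lemma G.mem {x : ℕ → ℝ} (h : G x) (m : ℕ) : Memℓp (Φ x m) ∞ := by
  obtain ⟨K, hK⟩ := h m
  refine memℓp_infty ⟨∑ k ∈ range K, (∑ t ∈ W k, |x (t + m)|) / (2 ^ 2 ^ k : ℕ), ?_⟩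
  rintro _ ⟨p, rfl⟩
  refine (abs_Φ x m p).trans ?_
  by_cases hp : p.1 < K
  · exact single_le_sum (f := fun k => (∑ t ∈ W k, |x (t + m)|) / (2 ^ 2 ^ k : ℕ))
      (fun k _ => by positivity) (mem_range.2 hp)
  · rw [sum_eq_zero fun t ht => by rw [hK _ (not_lt.1 hp) t ht, abs_zero], zero_div]
    positivity

noncomputable def mk (x : ℕ → ℝ) (h : G x) : Y := fun m => (x m, ⟨Φ x m, h.mem m⟩)

lemma mk_Z (x : ℕ → ℝ) (h : G x) : mk x h ∈ Z := fun _ _ => rfl

lemma G_single (s : ℕ) : G (Pi.single s 1) := fun m => ⟨s, fun k hk t ht => by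
  have := lt_N k
  have := (mem_Ico.1 ht).1
  exact Pi.single_eq_of_ne (by omega) _⟩

noncomputable def e (s : ℕ) : Y := mk _ (G_single s)

noncomputable def X : Submodule ℝ Y := (Submodule.span ℝ (Set.range e)).topologicalClosure

lemma span_Z : Submodule.span ℝ (Set.range e) ≤ Z :=
  Submodule.span_le.2 (by rintro _ ⟨s, rfl⟩; exact mk_Z _ _)

lemma X_Z : X ≤ Z := Submodule.topologicalClosure_minimal _ span_Z Z_closed

lemma X_closed : IsClosed (X : Set Y) := Submodule.isClosed_topologicalClosure _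

instance : PolishSpace X := by
  have := X_closed.isCompletelyMetrizableSpace
  have h : IsSeparable (X : Set Y) :=
    ((Set.countable_range e).isSeparable.span (R := ℝ)).closure
  have := h.separableSpace
  exact (inferInstance : PolishSpace (X : Set Y))

noncomputable def ι : (ℕ →₀ ℝ) →ₗ[ℝ] Y := Finsupp.linearCombination ℝ e

lemma ι_span (y : ℕ →₀ ℝ) : ι y ∈ Submodule.span ℝ (Set.range e) := by
  rw [← Finsupp.range_linearCombination]; exact ⟨y, rfl⟩

lemma ι_X (y : ℕ →₀ ℝ) : ι y ∈ X := Submodule.le_topologicalClosure _ (ι_span y)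

lemma ι_fst (y : ℕ →₀ ℝ) (t : ℕ) : (ι y t).1 = y t := by
  induction y using Finsupp.induction_linear with
  | zero => simp
  | add a b ha hb => simp [ha, hb]
  | single a b =>
    simp [ι, e, mk, Finsupp.single_apply, Pi.single_apply, eq_comm]

lemma nbhd {E : Type} [MetricSpace E] {y : ℕ → E} {U : Set (ℕ → E)} (hU : U ∈ 𝓝 y) :
    ∃ M : ℕ, ∃ ε : ℝ, 0 < ε ∧ ∀ z : ℕ → E, (∀ m < M, dist (z m) (y m) ≤ ε) → z ∈ U := by
  by_contra! hn
  choose z hz hz' using fun j : ℕ => hn j (1 / ((j : ℝ) + 1)) (by positivity)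
  have : Tendsto z atTop (𝓝 y) := tendsto_pi_nhds.2 fun m => tendsto_iff_dist_tendsto_zero.2
    (squeeze_zero' (.of_forall fun _ => dist_nonneg)
      ((eventually_gt_atTop m).mono fun j hj => hz j m hj) tendsto_one_div_add_atTop_nhds_zero_nat)
  obtain ⟨j, hj⟩ := (this.eventually hU).exists
  exact hz' j hj

lemma dense_ι {V : Set X} (hV : IsOpen V) (hn : V.Nonempty) : ∃ y : ℕ →₀ ℝ, ∃ M : ℕ, ∃ ε : ℝ,
    0 < ε ∧ ∀ z : X, (∀ m < M, dist (z.1 m) (ι y m) ≤ ε) → z ∈ V := by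
  obtain ⟨U, hU, rfl⟩ := isOpen_induced_iff.1 hV
  obtain ⟨z, hz⟩ := hn
  obtain ⟨w, hw, hw'⟩ := mem_closure_iff.1 z.2 U hU hz
  rw [← Finsupp.range_linearCombination] at hw'
  obtain ⟨y, rfl⟩ := hw'
  obtain ⟨M, ε, h1, h2⟩ := nbhd (hU.mem_nhds hw)
  exact ⟨y, M, ε, h1, fun z hz => h2 _ hz⟩

noncomputable def S : Y →L[ℝ] Y := ContinuousLinearMap.pi fun m => .proj (m + 1)

lemma S_apply (z : Y) (m : ℕ) : S z m = z (m + 1) := rfl

lemma S_Z {z : Y} (h : z ∈ Z) : S z ∈ Z := fun m p => by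
  rw [S_apply, h]; rfl

lemma S_X {z : Y} (h : z ∈ X) : S z ∈ X := by
  have h1 : Submodule.span ℝ (Set.range e) ≤ X.comap S.toLinearMap := by
    refine Submodule.span_le.2 ?_
    rintro _ ⟨s, rfl⟩
    change S (mk _ (G_single s)) ∈ X
    cases s with
    | zero =>
      rw [Z_ext (S_Z (mk_Z _ _)) Z.zero_mem fun t => by simp [S_apply, mk]]
      exact X.zero_mem
    | succ s =>
      rw [Z_ext (S_Z (mk_Z _ _)) (mk_Z _ (G_single s)) fun t => by
        simp [S_apply, mk, Pi.single_apply]]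
      exact Submodule.le_topologicalClosure _ (Submodule.subset_span ⟨s, rfl⟩)
  exact Submodule.topologicalClosure_minimal _ h1 (X_closed.preimage S.continuous) h

noncomputable def T : X →L[ℝ] X := (S.comp X.subtypeL).codRestrict X fun z => S_X z.2

lemma T_iter (n : ℕ) (z : X) (m : ℕ) : (T^[n] z).1 m = z.1 (m + n) := by
  induction n generalizing m with
  | zero => rfl
  | succ n ih =>
    rw [Function.iterate_succ_apply']
    exact (ih (m + 1)).trans (by rw [add_right_comm, add_assoc])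

lemma infdim : ¬ FiniteDimensional ℝ X := by
  intro h
  let f : X →ₗ[ℝ] (ℕ → ℝ) := (LinearMap.pi fun t => (LinearMap.fst ℝ ℝ L).comp (.proj t)).comp
    X.subtype
  have : LinearIndependent ℝ fun s : ℕ => (⟨e s, Submodule.le_topologicalClosure _
      (Submodule.subset_span ⟨s, rfl⟩)⟩ : X) :=
    LinearIndependent.of_comp f (Pi.linearIndependent_single_one ℕ ℝ)
  exact Module.Finite.not_linearIndependent_of_infinite _ this

lemma decay (z : X) {ε : ℝ} (hε : 0 < ε) :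
    ∃ K, ∀ k, K ≤ k → ∀ F, Φ (fun t => (z.1 t).1) 0 (k, F) ≤ ε := by
  obtain ⟨w, hw, hw'⟩ := mem_closure_iff.1 z.2 {w : Y | ‖(z.1 0).2 - (w 0).2‖ < ε}
    (isOpen_lt (by fun_prop) continuous_const) (by simpa)
  rw [← Finsupp.range_linearCombination] at hw'
  obtain ⟨y, rfl⟩ := hw'
  refine ⟨y.support.sup id, fun k hk F => ?_⟩
  have h1 := (lp.norm_apply_le_norm (by simp) _ (k, F)).trans (le_of_lt hw)
  have h2 : (ι y 0).2 (k, F) = 0 := by
    rw [span_Z (ι_span y), Φ, sum_eq_zero, zero_div]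
    intro t ht
    rw [ι_fst]
    by_contra hn
    have := le_sup (f := id) (Finsupp.mem_support_iff.2 hn)
    have := lt_N k
    have := (mem_Ico.1 (mem_inter.1 ht).1).1
    simp only [id] at *
    omega
  rw [← X_Z z.2]
  change |(z.1 0).2 (k, F) - (ι y 0).2 (k, F)| ≤ ε at h1
  rw [h2, sub_zero] at h1
  exact (le_abs_self _).trans h1

lemma mk_X {x : ℕ → ℝ} (h : ∀ k t, 2 ^ 2 ^ k ≤ t → t ≤ 4 * 2 ^ 2 ^ k → x t = 0) :
    ∃ z : X, ∀ t, (z.1 t).1 = x t := by
  have hG : G x := fun m => ⟨m, fun k hk t ht => by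
    have := lt_N k
    have := mem_Ico.1 ht
    exact h k _ (by omega) (by omega)⟩
  let y : ℕ → ℕ →₀ ℝ := fun n => Finsupp.onFinset (range n) (fun t => if t < n then x t else 0)
    fun t ht => by by_contra hn; exact ht (if_neg (by simpa using hn))
  refine ⟨⟨mk x hG, X_closed.mem_of_tendsto (f := fun n => ι (y n)) (b := atTop) ?_
    (.of_forall fun n => ι_X _)⟩, fun _ => rfl⟩
  refine tendsto_pi_nhds.2 fun m => tendsto_const_nhds.congr' ?_
  filter_upwards [eventually_gt_atTop (2 * m)] with n hn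
  refine Prod.ext ?_ (lp.ext (funext fun p => ?_))
  · rw [ι_fst]; exact (if_pos (by omega)).symm
  · rw [span_Z (ι_span _), mk_Z]
    unfold Φ
    congr 1
    refine sum_congr rfl fun t ht => ?_
    have := mem_Ico.1 (mem_inter.1 ht).1
    simp only [ι_fst]
    change x (t + m) = if t + m < n then x (t + m) else 0
    split_ifs with h1
    · rfl
    · exact h p.1 _ (by omega) (by omega)

end Pool.Agent.H.MP_5ec4bc_an
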