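import Pool.Agent.H.MP_5ec4bc_an.B

namespace Pool.Agent.H.MP_5ec4bc_an
open Filter Topology Finset TopologicalSpace
open scoped Classical ENNReal

lemma l1 (y : ℕ →₀ ℝ) : ∃ c : ℝ, 0 ≤ c ∧ ∀ (U : Finset ℕ) (b n : ℕ),
    ∑ t ∈ U, (if n ≤ t + b then |y (t + b - n)| else 0) ≤ c := by
  have hs : Summable fun s => |y s| :=
    summable_of_ne_finset_zero (s := y.support) fun s hs => by simpa using hs
  refine ⟨∑' s, |y s|, tsum_nonneg fun _ => abs_nonneg _, fun U b n => ?_⟩
  rw [← sum_filter, ← sum_image (f := fun s => |y s|) (g := fun t => t + b - n)]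
  · exact hs.sum_le_tsum _ fun _ _ => abs_nonneg _
  · intro s hs t ht h
    have := (mem_filter.1 hs).2
    have := (mem_filter.1 ht).2
    simp only at h
    omega

lemma sep {J : Finset ℕ} {a n d : ℕ} (hd : 0 < d) (h1 : ∀ s ∈ J, a < s + d ∧ s < a + n)
    (h2 : ∀ s ∈ J, ∀ t ∈ J, s ≠ t → s + d ≤ t ∨ t + d ≤ s) : J.card * d ≤ n + 2 * d := by
  have : J.card ≤ (range ((n + d) / d + 1)).card := by
    refine card_le_card_of_injOn (fun s => (s + d - a) / d) (fun s hs => ?_) fun s hs t ht h => ?_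
    · have := h1 s hs
      exact mem_coe.2 (mem_range.2 (Nat.lt_succ_of_le (Nat.div_le_div_right (by omega))))
    · by_contra hn
      have := h1 s hs
      have := h1 t ht
      simp only at h
      rcases h2 s hs t ht hn with h3 | h3
      · have h4 : (s + d - a + d) / d ≤ (t + d - a) / d := Nat.div_le_div_right (by omega)
        rw [Nat.add_div_right _ hd] at h4; omega
      · have h4 : (t + d - a + d) / d ≤ (s + d - a) / d := Nat.div_le_div_right (by omega)
        rw [Nat.add_div_right _ hd] at h4; omega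
  rw [card_range] at this
  have h3 := Nat.div_mul_le_self (n + d) d
  nlinarith

lemma memc {A : Set ℕ} {N n : ℕ} : n ∈ (Icc 1 N).filter (· ∈ A) ↔ n ∈ Icc 1 N ∧ n ∈ A :=
  mem_filter

theorem hered (V : ℕ → Set X) (A : ℕ → Set ℕ) (hV : ∀ i, IsOpen (V i) ∧ (V i).Nonempty)
    (hA : ∀ i, Pos (A i)) : ∃ z : X, ∀ i, Pos ({n | T^[n] z ∈ V i} ∩ A i) := by
  choose y M ε hε hy using fun i => dense_ι (hV i).1 (hV i).2
  choose c c0 hc using fun l => l1 (y l)
  have hD0 : ∀ l, ∃ d0 : ℕ, ∀ d, d0 ≤ d → (0 < d ∧ M l ≤ d ∧ (y l).support.sup id < d) ∧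
      ∀ i ∈ range (l + 1), 5 * c l / (ε i * (1 / 2) ^ (l + 1)) ≤ d := fun l =>
    eventually_atTop.1 (((eventually_gt_atTop _).and ((eventually_ge_atTop _).and
      (eventually_gt_atTop _))).and ((eventually_all_finset _).2 fun i _ =>
        tendsto_natCast_atTop_atTop.eventually (eventually_ge_atTop _)))
  choose d0 hd0 using hD0
  let D : ℕ → ℕ := fun l => ∑ j ∈ range (l + 1), d0 j
  have mD : Monotone D := fun a b h => sum_le_sum_of_subset (range_mono (by omega))
  have hD := fun l => hd0 l (D l) (single_le_sum (f := d0) (fun _ _ => Nat.zero_le _)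
    (self_mem_range_succ l))
  have y0 : ∀ l s, D l ≤ s → y l s = 0 := fun l s h => by
    by_contra hn
    have := le_sup (f := id) (Finsupp.mem_support_iff.2 hn)
    have := (hD l).1.2.2
    simp only [id] at *
    omega
  obtain ⟨N, hN, P1, P2, P3⟩ := comb A hA (fun l => (hD l).1.1) mD
  let R : ℕ → ℕ × ℕ → Prop := fun t p => p.2 ∈ N p.1 ∧ p.2 ≤ t ∧ t < p.2 + D p.1
  let x : ℕ → ℝ := fun t => if h : ∃ p, R t p then y h.choose.1 (t - h.choose.2) else 0
  have xa : ∀ l, ∀ n ∈ N l, ∀ s < D l, x (s + n) = y l s := fun l n hn s hs => by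
    have h : ∃ p, R (s + n) p := ⟨(l, n), hn, by omega, by simp only; omega⟩
    have h1 := h.choose_spec
    simp only [x, dif_pos h]
    generalize h.choose = p at *
    obtain ⟨l', n'⟩ := p
    obtain ⟨h2, h3, h4⟩ := h1
    simp only at *
    by_cases h5 : l = l' ∧ n = n'
    · obtain ⟨rfl, rfl⟩ := h5; simp
    · have := P1 l l' n hn n' h2 (by tauto); omega
  have xb : ∀ t, x t = 0 ∨ ∃ l, ∃ n ∈ N l, n ≤ t ∧ t < n + D l ∧ x t = y l (t - n) := fun t => by
    by_cases h : ∃ p, R t p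
    · exact Or.inr ⟨_, _, h.choose_spec.1, h.choose_spec.2.1, h.choose_spec.2.2, dif_pos h⟩
    · exact Or.inl (dif_neg h)
  obtain ⟨z, hz⟩ := mk_X (x := x) fun k t h1 h2 => by
    rcases xb t with h | ⟨l, n, hn, h3, h4, -⟩
    · exact h
    · have := (P2 l n hn).2 k; omega
  refine ⟨z, fun i => ?_⟩
  obtain ⟨δ, hδ, h⟩ := (hN i).2
  refine ⟨δ, hδ, h.mono fun n hn => hn.trans (Nat.cast_le.2 (card_le_card fun n hn => ?_))⟩
  rw [memc] at hn ⊢
  refine ⟨hn.1, hy i _ fun m hm => ?_, (hN i).1 hn.2⟩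
  have hm' : m < D i := hm.trans_le (hD i).1.2.1
  replace hn := hn.2
  rw [T_iter, Prod.dist_eq, hz, ι_fst, xa i n hn m hm', dist_self, dist_eq_norm]
  refine max_le (hε i).le (lp.norm_le_of_forall_le (hε i).le fun p => ?_)
  obtain ⟨k, F⟩ := p
  change |(z.1 (m + n)).2 (k, F) - (ι (y i) m).2 (k, F)| ≤ ε i
  rw [X_Z z.2, span_Z (ι_span _)]
  have e1 : Φ (fun t => (z.1 t).1) (m + n) (k, F) - Φ (fun t => (ι (y i) t).1) m (k, F) =
      Φ (fun t => x (t + n) - y i t) m (k, F) := by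
    simp only [Φ, hz, ι_fst, sum_sub_distrib, sub_div, add_assoc]
  rw [e1]
  refine (abs_Φ _ _ _).trans ?_
  have hk : 0 < 2 ^ 2 ^ k := by positivity
  simp only
  set K := 2 ^ 2 ^ k with hK
  rw [div_le_iff₀ (by positivity)]
  let J : ℕ → Finset ℕ := fun l => (range (m + n + 2 * K)).filter fun s =>
    s ∈ N l ∧ n + D i + D l ≤ s ∧ m + n + K < s + D l
  calc _ ≤ ∑ t ∈ W k, ∑ l ∈ range (m + n + 2 * K), ∑ s ∈ J l,
        (if s ≤ t + (m + n) then |y l (t + (m + n) - s)| else 0) := by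
        refine sum_le_sum fun t ht => ?_
        have ht := mem_Ico.1 ht
        have nn : ∀ l s, 0 ≤ (if s ≤ t + (m + n) then |y l (t + (m + n) - s)| else 0) :=
          fun l s => by split_ifs <;> positivity
        have n0 : (0 : ℝ) ≤ ∑ l ∈ range (m + n + 2 * K), ∑ s ∈ J l,
            (if s ≤ t + (m + n) then |y l (t + (m + n) - s)| else 0) :=
          sum_nonneg fun l _ => sum_nonneg fun s _ => nn l s
        by_cases h1 : t + m < D i
        · rwa [xa i n hn _ h1, sub_self, abs_zero]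
        rw [y0 i _ (not_lt.1 h1), sub_zero]
        rcases xb (t + m + n) with h2 | ⟨l, s, hs, h3, h4, h5⟩
        · rwa [h2, abs_zero]
        have h6 := (P2 l s hs).1
        have h7 : n + D i + D l ≤ s := by
          have := P1 i l n hn s hs (by by_contra! h; obtain ⟨rfl, rfl⟩ := h; omega)
          omega
        refine le_trans ?_ (single_le_sum (fun l _ => sum_nonneg fun s _ => nn l s)
          (mem_range.2 (show l < _ by omega)))
        refine le_trans ?_ (single_le_sum (fun s _ => nn l s) (show s ∈ J l from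
          mem_filter.2 ⟨mem_range.2 (by omega), hs, h7, by omega⟩))
        rw [if_pos (by omega), h5, add_assoc]
    _ = ∑ l ∈ range (m + n + 2 * K), ∑ s ∈ J l, ∑ t ∈ W k,
        (if s ≤ t + (m + n) then |y l (t + (m + n) - s)| else 0) := by
        rw [sum_comm]; exact sum_congr rfl fun l _ => sum_comm
    _ ≤ ∑ l ∈ range (m + n + 2 * K), ε i * K * (1 / 2) ^ (l + 1) := by
        refine sum_le_sum fun l _ => (sum_le_card_nsmul _ _ _ fun s _ => hc l _ _ _).trans ?_
        have := hε i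
        rcases (J l).eq_empty_or_nonempty with h0 | ⟨s, hs⟩
        · rw [h0, card_empty, zero_smul]; positivity
        obtain ⟨h1, h2, h3, h4⟩ := mem_filter.1 hs
        rw [mem_range] at h1
        have h5 := (P2 l s h2).2 k
        have h6 : i ≤ l := by
          by_contra! h6
          rcases P3 i n hn k with h7 | h7
          · omega
          · have := h7 l h6 s h2; omega
        have h7 := sep (J := J l) (a := m + n + K) (n := K) (hD l).1.1 (fun s hs => by
          have := mem_filter.1 hs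
          have := mem_range.1 this.1
          omega) fun s hs t ht hst => by
          have := P1 l l s (mem_filter.1 hs).2.1 t (mem_filter.1 ht).2.1 (Or.inr hst)
          omega
        have h8 : ((J l).card : ℝ) * D l ≤ 5 * K := by
          exact_mod_cast h7.trans (by omega)
        have h9 := (hD l).2 i (mem_range.2 (by omega))
        rw [div_le_iff₀ (by positivity)] at h9
        have hq : 0 < ε i * (1 / 2) ^ (l + 1) := by positivity
        rw [nsmul_eq_mul]
        nlinarith [mul_le_mul_of_nonneg_left h9 (Nat.cast_nonneg (α := ℝ) (J l).card),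
          mul_le_mul_of_nonneg_right h8 hq.le]
    _ ≤ _ := by
        rw [← mul_sum]
        have := hε i
        refine mul_le_of_le_one_right (by positivity) ?_
        have h := summable_geometric_two.sum_le_tsum (range (m + n + 2 * K))
          fun _ _ => by positivity
        rw [tsum_geometric_two] at h
        simp only [pow_succ, ← sum_mul]
        linarith

def AU : Set ℕ := {n | ∃ k, n ∈ W k}

lemma AU_big : ∃ᶠ N : ℕ in atTop, (1 / 2 : ℝ) ≤ cnt AU N / N := by
  refine frequently_atTop.2 fun k => ⟨2 * 2 ^ 2 ^ k, by have := lt_N k; omega, ?_⟩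
  have hk : 0 < 2 ^ 2 ^ k := by positivity
  have : (W k).card ≤ cnt AU (2 * 2 ^ 2 ^ k) := card_le_card fun n hn => by
    have := mem_Ico.1 hn
    exact mem_filter.2 ⟨mem_Icc.2 (by omega), k, hn⟩
  rw [W, Nat.card_Ico, show 2 * 2 ^ 2 ^ k - 2 ^ 2 ^ k = 2 ^ 2 ^ k by omega] at this
  have h := (Nat.cast_le (α := ℝ)).2 this
  rw [le_div_iff₀ (by positivity), Nat.cast_mul]
  simp only [Nat.cast_ofNat] at *
  linarith

lemma small (z : X) : Tendsto (fun N : ℕ =>
    (cnt ({n | 1 < (z.1 n).1} ∩ AU) N : ℝ) / N) atTop (𝓝 0) := by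
  refine tendsto_order.2 ⟨fun a ha => .of_forall fun N => ha.trans_le (by positivity),
    fun ε hε => ?_⟩
  obtain ⟨K0, hK⟩ := decay z (show 0 < ε / 3 by positivity)
  obtain ⟨K1, hK1⟩ := exists_nat_ge (6 / ε)
  filter_upwards [eventually_ge_atTop (2 ^ 2 ^ (K0 + K1 + 1))] with N hN
  have hex : ∃ j, N < 2 ^ 2 ^ j := ⟨N, lt_N N⟩
  have h1 := Nat.find_spec hex
  have h2 : K0 + K1 + 1 < Nat.find hex := by
    by_contra! h
    have := N_mono h; omega
  obtain ⟨k, hk⟩ : ∃ k, Nat.find hex = k + 2 := ⟨Nat.find hex - 2, by omega⟩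
  have h3 : 2 ^ 2 ^ (k + 1) ≤ N := not_lt.1 (Nat.find_min hex (by omega))
  rw [hk] at h1 h2
  let F := (W (k + 1)).filter fun t => 1 < (z.1 t).1
  have h4 : cnt ({n | 1 < (z.1 n).1} ∩ AU) N ≤ 2 * 2 ^ 2 ^ k + F.card := by
    rw [← card_range (2 * 2 ^ 2 ^ k)]
    refine le_trans (card_le_card fun n hn => ?_) (card_union_le _ _)
    obtain ⟨h5, h6, j, hj⟩ := memc.1 hn
    have h7 := mem_Ico.1 hj
    have h8 := mem_Icc.1 h5
    rcases lt_trichotomy j (k + 1) with h | rfl | h
    · have := N_mono (show j ≤ k by omega)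
      exact mem_union_left _ (mem_range.2 (by omega))
    · exact mem_union_right _ (mem_filter.2 ⟨hj, h6⟩)
    · have := N_mono (show k + 2 ≤ j by omega); omega
  have h5 := hK (k + 1) (by omega) F
  rw [Φ, inter_eq_right.2 (filter_subset _ _), div_le_iff₀ (by positivity)] at h5
  have h6 : (F.card : ℝ) ≤ ∑ t ∈ F, (z.1 (t + 0)).1 := by
    simpa using card_nsmul_le_sum F (fun t => (z.1 t).1) 1 fun t ht => (mem_filter.1 ht).2.le
  have h7 : (6 / ε : ℝ) ≤ (2 ^ 2 ^ k : ℕ) := hK1.trans (by have := lt_N k; exact_mod_cast (by omega))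
  have h8 : 2 ^ 2 ^ (k + 1) = 2 ^ 2 ^ k * 2 ^ 2 ^ k := by rw [← pow_add]; congr 1; omega
  have hp : 0 < 2 ^ 2 ^ k := by positivity
  simp only at h5
  rw [h8] at h3 h5
  generalize 2 ^ 2 ^ k = q at *
  have h4' := (Nat.cast_le (α := ℝ)).2 h4
  have h3' := (Nat.cast_le (α := ℝ)).2 h3
  have hp' : (0 : ℝ) < q := by exact_mod_cast hp
  push_cast at *
  rw [div_le_iff₀ hε] at h7
  rw [div_lt_iff₀ (by nlinarith)]
  nlinarith [mul_le_mul_of_nonneg_left h3' hε.le, mul_le_mul_of_nonneg_left h7 hp'.le,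
    mul_pos hε (mul_pos hp' hp')]

lemma ncard_eq (A : Set ℕ) (N : ℕ) : (A ∩ Set.Icc 1 N).ncard = cnt A N := by
  rw [cnt, ← Set.ncard_coe_finset]; congr 1; ext n; simp; tauto

lemma bdd (A : Set ℕ) (N : ℕ) : (0 : ℝ) ≤ cnt A N / N ∧ (cnt A N / N : ℝ) ≤ 1 := by
  refine ⟨by positivity, div_le_one_of_le₀ ?_ (by positivity)⟩
  exact_mod_cast (card_filter_le _ _).trans (by simp)

lemma pos_iff (A : Set ℕ) : 0 < liminf (fun N : ℕ => ((A ∩ Set.Icc 1 N).ncard : ℝ) / N) atTop ↔
    Pos A := by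
  simp only [ncard_eq]
  constructor
  · intro h
    obtain ⟨δ, h1, h2⟩ := exists_between h
    refine ⟨δ, h1, ?_⟩
    filter_upwards [eventually_lt_of_lt_liminf h2 (isBoundedUnder_of ⟨0, fun N => (bdd A N).1⟩),
      eventually_gt_atTop 0] with N h3 h4
    exact ((lt_div_iff₀ (by positivity)).1 h3).le
  · rintro ⟨δ, h1, h2⟩
    refine h1.trans_le (le_liminf_of_le (isCoboundedUnder_ge_of_le _ fun N => (bdd A N).2) ?_)
    filter_upwards [h2, eventually_gt_atTop 0] with N h3 h4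
    exact (le_div_iff₀ (by positivity)).2 h3

theorem main1 (I : Type) [Countable I] (V : I → Set X) (A : I → Set ℕ)
    (hV : ∀ i, IsOpen (V i) ∧ (V i).Nonempty)
    (hA : ∀ i, 0 < liminf (fun N : ℕ => ((A i ∩ Set.Icc 1 N).ncard : ℝ) / N) atTop) :
    ∃ z : X, ∀ i, 0 < liminf (fun N : ℕ =>
      (({n | T^[n] z ∈ V i} ∩ A i ∩ Set.Icc 1 N).ncard : ℝ) / N) atTop := by
  simp only [pos_iff] at *
  cases isEmpty_or_nonempty I
  · exact ⟨0, fun i => isEmptyElim i⟩
  obtain ⟨f, hf⟩ := exists_surjective_nat I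
  obtain ⟨z, hz⟩ := hered (V ∘ f) (A ∘ f) (fun i => hV _) fun i => hA _
  exact ⟨z, hf.forall.2 hz⟩

theorem main2 : ∃ (V : Set X) (A : Set ℕ), (IsOpen V ∧ V.Nonempty) ∧
    0 < limsup (fun N : ℕ => ((A ∩ Set.Icc 1 N).ncard : ℝ) / N) atTop ∧ ∀ z : X,
    limsup (fun N : ℕ => (({n | T^[n] z ∈ V} ∩ A ∩ Set.Icc 1 N).ncard : ℝ) / N) atTop = 0 := by
  refine ⟨{z | 1 < (z.1 0).1}, AU, ⟨isOpen_lt continuous_const
    (continuous_fst.comp ((continuous_apply 0).comp continuous_subtype_val)),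
    ⟨ι (Finsupp.single 0 2), ι_X _⟩, by simp [ι_fst]⟩, ?_, fun z => ?_⟩
  · simp only [ncard_eq]
    exact lt_of_lt_of_le (by norm_num) (le_limsup_of_frequently_le AU_big
      (isBoundedUnder_of ⟨1, fun N => (bdd AU N).2⟩))
  · simp only [ncard_eq, Set.mem_ofPred_eq, T_iter, zero_add]
    exact (small z).limsup_eq

end Pool.Agent.H.MP_5ec4bc_an
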